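import Pool.Agent.Q92.AR.Stm3

/-!
# Brauer's induction theorem
-/

set_option autoImplicit false
set_option linter.unusedSectionVars false

namespace Pool.Agent.Q299.AR

open Pool.Agent.Q92.AR Pool.Agent.H541R3.ART Pool.Agent.Q5.SO
open Pool.Agent.Q92.RT (induced class_expand)

section
variable {G : Type} [Group G]

open scoped Classical in
/-- Extension by zero of a function on a subgroup. -/
noncomputable def ext0 (H : Subgroup G) (ψ : H → ℂ) (z : G) : ℂ :=
  if h : z ∈ H then ψ ⟨z, h⟩ else 0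

theorem inducedF_eq (H : Subgroup G) (ψ : H → ℂ) (g : G) :
    inducedF H ψ g = (Nat.card H : ℂ)⁻¹ * ∑ᶠ x : G, ext0 H ψ (x⁻¹ * g * x) := rfl

theorem induced_eq (H : Subgroup G) (ψ : H →* ℂˣ) (g : G) :
    induced H ψ g = (Nat.card H : ℂ)⁻¹ *
      ∑ᶠ x : G, ext0 H (fun h => ((ψ h : ℂˣ) : ℂ)) (x⁻¹ * g * x) := rfl

variable [Finite G]

/-- Restriction, then induction. -/
theorem fq_mul (B : Subgroup G) {χ : G → ℂ} (hχ : ∀ g x : G, χ (x * g * x⁻¹) = χ g) (g : G) :
    (fq B g : ℂ) * χ g = inducedF B (fun b => χ b) g := by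
  classical
  have : Fintype G := Fintype.ofFinite G
  have hB : (Nat.card B : ℂ) ≠ 0 := by exact_mod_cast Nat.card_pos.ne'
  rw [inducedF_eq, finsum_eq_sum_of_fintype]
  have h1 : ∀ x : G, ext0 B (fun b => χ b) (x⁻¹ * g * x) =
      if x⁻¹ * g * x ∈ B then χ g else 0 := by
    intro x
    unfold ext0
    by_cases h : x⁻¹ * g * x ∈ B
    · rw [dif_pos h, if_pos h]
      have := hχ g x⁻¹
      rw [inv_inv] at this
      exact this
    · rw [dif_neg h, if_neg h]
  rw [Finset.sum_congr rfl fun x _ => h1 x, ← Finset.sum_filter, Finset.sum_const, nsmul_eq_mul]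
  have h2 := card_fq B g
  rw [Nat.card_eq_fintype_card (α := {x : G // x⁻¹ * g * x ∈ B}), Fintype.card_subtype] at h2
  have h3 : (Nat.card B : ℂ) * (fq B g : ℂ) =
      ((Finset.univ.filter fun x : G => x⁻¹ * g * x ∈ B).card : ℂ) := by
    exact_mod_cast h2
  rw [← h3]
  field_simp

theorem inducedF_sum {J : Type*} (B : Subgroup G) (s : Finset J) (m : J → ℂ)
    (f : J → B → ℂ) (g : G) :
    inducedF B (fun b => ∑ j ∈ s, m j * f j b) g = ∑ j ∈ s, m j * inducedF B (f j) g := by
  classical
  have : Fintype G := Fintype.ofFinite G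
  simp only [inducedF_eq, finsum_eq_sum_of_fintype]
  have h1 : ∀ z : G, ext0 B (fun b => ∑ j ∈ s, m j * f j b) z = ∑ j ∈ s, m j * ext0 B (f j) z := by
    intro z
    unfold ext0
    by_cases h : z ∈ B
    · simp only [dif_pos h]
    · simp only [dif_neg h, mul_zero, Finset.sum_const_zero]
  simp only [h1]
  rw [Finset.sum_comm, Finset.mul_sum]
  refine Finset.sum_congr rfl fun j _ => ?_
  rw [← Finset.mul_sum]
  ring

/-- The linear character of the image of a subgroup of a subgroup. -/
noncomputable def mapChar (B : Subgroup G) (H : Subgroup B) (ψ : H →* ℂˣ) :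
    H.map B.subtype →* ℂˣ :=
  ψ.comp (H.equivMapOfInjective B.subtype B.subtype_injective).symm.toMonoidHom

theorem ext0_map (B : Subgroup G) (H : Subgroup B) (ψ : H →* ℂˣ) (z : G) :
    ext0 (H.map B.subtype) (fun h => ((mapChar B H ψ h : ℂˣ) : ℂ)) z =
      ext0 B (ext0 H (fun h => ((ψ h : ℂˣ) : ℂ))) z := by
  classical
  unfold ext0
  by_cases hz : z ∈ B
  · rw [dif_pos hz]
    by_cases hz' : (⟨z, hz⟩ : B) ∈ H
    · have h1 : z ∈ H.map B.subtype := ⟨⟨z, hz⟩, hz', rfl⟩
      rw [dif_pos h1, dif_pos hz']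
      have h2 : (H.equivMapOfInjective B.subtype B.subtype_injective).symm ⟨z, h1⟩ =
          ⟨⟨z, hz⟩, hz'⟩ := by
        rw [MulEquiv.symm_apply_eq]
        rfl
      change ((ψ ((H.equivMapOfInjective B.subtype B.subtype_injective).symm ⟨z, h1⟩) : ℂˣ) : ℂ)
        = _
      rw [h2]
    · have h1 : z ∉ H.map B.subtype := by
        rintro ⟨y, hy, hyz⟩
        apply hz'
        have : (⟨z, hz⟩ : B) = y := Subtype.ext hyz.symm
        rw [this]
        exact hy
      rw [dif_neg h1, dif_neg hz']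
  · have h1 : z ∉ H.map B.subtype := by
      rintro ⟨y, hy, rfl⟩
      exact hz y.2
    rw [dif_neg h1, dif_neg hz]

/-- Transitivity of induction. -/
theorem inducedF_induced (B : Subgroup G) (H : Subgroup B) (ψ : H →* ℂˣ) (g : G) :
    inducedF B (fun b => induced H ψ b) g = induced (H.map B.subtype) (mapChar B H ψ) g := by
  classical
  have : Fintype G := Fintype.ofFinite G
  have : Fintype B := Fintype.ofFinite B
  have hB : (Nat.card B : ℂ) ≠ 0 := by exact_mod_cast Nat.card_pos.ne'
  rw [inducedF_eq, induced_eq, finsum_eq_sum_of_fintype, finsum_eq_sum_of_fintype]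
  have hc : Nat.card (H.map B.subtype) = Nat.card H :=
    (Nat.card_congr (H.equivMapOfInjective B.subtype B.subtype_injective).toEquiv).symm
  rw [hc]
  have h1 : ∀ z : G, ext0 B (fun b => induced H ψ b) z =
      (Nat.card H : ℂ)⁻¹ * ∑ y : B,
        ext0 (H.map B.subtype) (fun h => ((mapChar B H ψ h : ℂˣ) : ℂ)) ((y : G)⁻¹ * z * y) := by
    intro z
    simp only [ext0_map]
    by_cases hz : z ∈ B
    · have h2 : ext0 B (fun b => induced H ψ b) z = induced H ψ ⟨z, hz⟩ := by
        unfold ext0; rw [dif_pos hz]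
      rw [h2, induced_eq, finsum_eq_sum_of_fintype]
      congr 1
      refine Finset.sum_congr rfl fun y _ => ?_
      have h3 : (y : G)⁻¹ * z * y ∈ B := B.mul_mem (B.mul_mem (B.inv_mem y.2) hz) y.2
      have h4 : ext0 B (ext0 H fun h => ((ψ h : ℂˣ) : ℂ)) ((y : G)⁻¹ * z * y) =
          ext0 H (fun h => ((ψ h : ℂˣ) : ℂ)) ⟨(y : G)⁻¹ * z * y, h3⟩ := by
        conv_lhs => unfold ext0
        rw [dif_pos h3]
        rfl
      rw [h4]
      rfl
    · have h2 : ext0 B (fun b => induced H ψ b) z = 0 := by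
        unfold ext0; rw [dif_neg hz]
      rw [h2]
      symm
      refine mul_eq_zero_of_right _ (Finset.sum_eq_zero fun y _ => ?_)
      have h3 : (y : G)⁻¹ * z * y ∉ B := by
        intro h
        apply hz
        have h5 := B.mul_mem (B.mul_mem y.2 h) (B.inv_mem y.2)
        have h6 : (y : G) * ((y : G)⁻¹ * z * y) * (y : G)⁻¹ = z := by group
        rwa [h6] at h5
      conv_lhs => unfold ext0
      rw [dif_neg h3]
  simp only [h1]
  rw [← Finset.mul_sum, Finset.sum_comm]
  have h2 : ∀ y : B, ∑ x : G, ext0 (H.map B.subtype)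
      (fun h => ((mapChar B H ψ h : ℂˣ) : ℂ)) ((y : G)⁻¹ * (x⁻¹ * g * x) * y) =
      ∑ x : G, ext0 (H.map B.subtype) (fun h => ((mapChar B H ψ h : ℂˣ) : ℂ))
        (x⁻¹ * g * x) := by
    intro y
    refine Fintype.sum_equiv (Equiv.mulRight (y : G)) _ _ fun x => ?_
    rw [Equiv.coe_mulRight]
    congr 1
    group
  rw [Finset.sum_congr rfl fun y _ => h2 y, Finset.sum_const, Finset.card_univ, nsmul_eq_mul,
    Nat.card_eq_fintype_card (α := B)]
  have hB' : (Fintype.card B : ℂ) ≠ 0 := by
    rw [← Nat.card_eq_fintype_card]; exact hB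
  field_simp

end

theorem brauer (hM : S_Mono) : S_Brauer := by
  classical
  intro G _ _ χ hχ
  have : Fintype G := Fintype.ofFinite G
  have : Fintype (Subgroup G) := Fintype.ofFinite _
  obtain ⟨n, hn, hsum⟩ := solomon (G := G)
  have key : ∀ B : Subgroup G, ∃ (ι : Type) (_ : Fintype ι) (H : ι → Subgroup G)
      (ψ : ∀ i, H i →* ℂˣ) (m : ι → ℤ), ∀ g, (n B : ℂ) * (fq B g : ℂ) * χ g =
        ∑ i, (m i : ℂ) * induced (H i) (ψ i) g := by
    intro B
    by_cases hB : n B = 0
    · refine ⟨Empty, inferInstance, fun i => i.elim, fun i => i.elim, fun i => i.elim,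
        fun g => ?_⟩
      rw [hB]
      simp
    have : Fintype B := Fintype.ofFinite B
    choose! k hk using fun η (hη : η ∈ Irr B) =>
      Pool.Agent.W446.AS.exists_mult_irr hχ B hη
    have hexp : ∀ b : B, χ b = ∑ η ∈ irrF B, (k η : ℂ) * η b := by
      intro b
      refine class_expand (θ := fun b : B => χ b) (m := fun η => (k η : ℂ)) ?_ ?_ b
      · intro g x
        exact Irr.conj hχ g x
      · intro η hη
        have h := hk η hη
        rw [finsum_eq_sum_of_fintype] at h
        exact h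
    choose H ψ hHψ using fun η : {η // η ∈ irrF B} => hM B (hn B hB) η.1 (mem_irrF.1 η.2)
    refine ⟨{η // η ∈ irrF B}, inferInstance, fun η => (H η).map B.subtype,
      fun η => mapChar B (H η) (ψ η), fun η => n B * (k η.1 : ℤ), fun g => ?_⟩
    have h1 : inducedF B (fun b => χ b) g =
        ∑ η ∈ irrF B, (k η : ℂ) * inducedF B η g := by
      rw [← inducedF_sum]
      congr 1
      funext b
      exact hexp b
    rw [mul_assoc, fq_mul B (fun g x => Irr.conj hχ g x), h1, ← Finset.sum_coe_sort (irrF B),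
      Finset.mul_sum]
    refine Finset.sum_congr rfl fun η _ => ?_
    have h2 : inducedF B (η : B → ℂ) g = induced ((H η).map B.subtype) (mapChar B (H η) (ψ η)) g := by
      rw [← inducedF_induced]
      congr 1
      funext b
      exact hHψ η b
    rw [h2]
    push_cast
    ring
  choose ι hι H ψ m hm using key
  refine ⟨Σ B, ι B, inferInstance, fun i => H i.1 i.2, fun i => ψ i.1 i.2, fun i => m i.1 i.2,
    fun g => ?_⟩
  rw [Fintype.sum_sigma]
  rw [← Finset.sum_congr rfl fun B _ => hm B g]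
  rw [← Finset.sum_mul]
  have h1 : (1 : ℂ) = ∑ B, (n B : ℂ) * (fq B g : ℂ) := by
    have := hsum g
    have h2 : ((1 : ℤ) : ℂ) = ((∑ B, n B * fq B g : ℤ) : ℂ) := congrArg _ this
    push_cast at h2
    exact h2
  rw [← h1, one_mul]


end Pool.Agent.Q299.AR
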